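import Mathlib

namespace Pool.Agent.Results.MP_c24244_an.Octagon

/-- property β with constant `ρ` -/
def HasBeta (Y : Type) [NormedAddCommGroup Y] [NormedSpace ℝ Y] (ρ : ℝ) : Prop :=
  ∃ (Λ : Type) (y : Λ → Y) (f : Λ → StrongDual ℝ Y), (∀ a, ‖y a‖ = 1 ∧ ‖f a‖ = 1 ∧ f a (y a) = 1) ∧
    (∀ a c, a ≠ c → |f a (y c)| ≤ ρ) ∧ ∀ v, IsLUB (Set.range fun a => |f a v|) ‖v‖

def Y : Submodule ℝ (Fin 4 → ℝ) where
  carrier := {v | 7 * v 2 = 5 * (v 0 + v 1) ∧ 7 * v 3 = 5 * (v 0 - v 1)}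
  add_mem' := fun ⟨a, b⟩ ⟨c, d⟩ => ⟨by simp; linarith, by simp; linarith⟩
  zero_mem' := by simp
  smul_mem' r v := fun ⟨a, b⟩ =>
    ⟨by simp; linear_combination r * a, by simp; linear_combination r * b⟩

noncomputable def mk (a b : ℝ) : Y := ⟨![a, b, 5 / 7 * (a + b), 5 / 7 * (a - b)], by
  constructor <;> simp <;> ring⟩

noncomputable def y : Fin 4 → Y := ![mk 1 0, mk 0 1, mk (7 / 10) (7 / 10), mk (7 / 10) (-7 / 10)]

noncomputable def t : Fin 5 → Y := ![y 0, y 2, -y 3, -y 0, -y 1]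

lemma co (v : Y) (a : Fin 4) : |v.1 a| ≤ ‖v‖ := norm_le_pi_norm v.1 a

lemma att (v : Y) : ∃ a, |v.1 a| = ‖v‖ := by
  obtain ⟨a, h⟩ := Finite.exists_max fun a => |v.1 a|
  exact ⟨a, (co v a).antisymm ((pi_norm_le_iff_of_nonneg (abs_nonneg _)).2 h)⟩

lemma yy (a c : Fin 4) : (y a).1 a = 1 ∧ (a ≠ c → |(y c).1 a| ≤ 5 / 7) := by
  fin_cases a <;> fin_cases c <;> simp [y, mk, abs_le] <;> norm_num

lemma ny (a : Fin 4) : ‖y a‖ = 1 := by
  refine le_antisymm ((pi_norm_le_iff_of_nonneg zero_le_one).2 fun c => ?_)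
    (by simpa [(yy a a).1] using co (y a) a)
  rcases eq_or_ne c a with rfl | h
  · simp [(yy c c).1]
  · exact ((yy c a).2 h).trans (by norm_num)

lemma nt (i : Fin 5) : ‖t i‖ = 1 := by
  fin_cases i
  exacts [ny 0, ny 2, (norm_neg _).trans (ny 3), (norm_neg _).trans (ny 0), (norm_neg _).trans (ny 1)]

lemma beta : HasBeta Y (5 / 7) := by
  let f : Fin 4 → StrongDual ℝ Y := fun a => (ContinuousLinearMap.proj a).comp Y.subtypeL
  refine ⟨Fin 4, y, f, fun a => ⟨ny a, le_antisymm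
    (ContinuousLinearMap.opNorm_le_bound _ zero_le_one fun v => (co v a).trans_eq (one_mul _).symm) ?_, (yy a a).1⟩,
    fun a c => (yy a c).2, fun v => IsGreatest.isLUB ⟨att v, ?_⟩⟩
  · have := (f a).le_opNorm (y a)
    rwa [ny, mul_one, show f a (y a) = 1 from (yy a a).1, norm_one] at this
  · rintro _ ⟨a, rfl⟩; exact co v a

def near (a : Fin 4) (s : Bool) : Finset (Fin 5) :=
  if s then ![{0, 1}, {1, 2}, {0, 1}, {0, 4}] a else ![{2, 3}, {4}, {3, 4}, {2, 3}] a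

lemma far (a : Fin 4) (s : Bool) (i : Fin 5) (u : Y) (h1 : ‖u‖ ≤ 1)
    (h2 : u.1 a = if s then 1 else -1) (h3 : ‖t i - u‖ < 11 / 10) : i ∈ near a s := by
  obtain ⟨p, q⟩ := u.2
  have b := fun c => abs_le.1 ((co u c).trans h1)
  have d := fun c => abs_lt.1 ((co (t i - u) c).trans_lt h3)
  have b0 := b 0; have b1 := b 1; have b2 := b 2; have b3 := b 3
  have d0 := d 0; have d1 := d 1; have d2 := d 2; have d3 := d 3
  clear b d h3 h1
  fin_cases a <;> fin_cases i <;> cases s <;> first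
    | decide
    | (simp [t, y, mk] at h2 d0 d1 d2 d3; linarith)

theorem result : ∃ (X Y : Type) (_ : NormedAddCommGroup X) (_ : NormedSpace ℝ X)
    (_ : CompleteSpace X) (_ : NormedAddCommGroup Y) (_ : NormedSpace ℝ Y) (_ : CompleteSpace Y)
    (ρ ε : ℝ) (x : X) (T : X →L[ℝ] Y), 0 ≤ ρ ∧ ρ < 1 ∧ HasBeta Y ρ ∧ 0 < ε ∧ ε < 1 ∧
    ‖x‖ = 1 ∧ ‖T‖ = 1 ∧ 1 - ε < ‖T x‖ ∧
    ∀ (z : X) (F : X →L[ℝ] Y), ‖z‖ = 1 → ‖F‖ = 1 → ‖F z‖ = 1 → 11 / 10 ≤ max ‖x - z‖ ‖T - F‖ := by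
  let X := PiLp 1 fun _ : Fin 5 => ℝ
  let T : X →L[ℝ] Y := ∑ i, (PiLp.proj 1 (fun _ : Fin 5 => ℝ) i).smulRight (t i)
  let e : Fin 5 → X := fun i => PiLp.single 1 i 1
  have ne : ∀ i, ‖e i‖ = 1 := fun i => by simp [e, X]
  have nz : ∀ z : X, ‖z‖ = ∑ i, |z i| := fun z => PiLp.norm_eq_of_L1 z
  have Tz : ∀ z, T z = ∑ i, z i • t i := fun z => by simp [T, X]
  have Te : ∀ i, T (e i) = t i := fun i => by simp [Tz, e, Pi.single_apply]
  refine ⟨X, Y, inferInstance, inferInstance, inferInstance, inferInstance, inferInstance,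
    FiniteDimensional.complete ℝ Y, 5 / 7, 19 / 20, WithLp.toLp 1 fun _ => 1 / 5, T, by norm_num,
    by norm_num, beta, by norm_num, by norm_num, by simp [nz], le_antisymm
    (ContinuousLinearMap.opNorm_le_bound _ zero_le_one fun z => ?_) ?_, ?_, fun z F hz hF hFz => ?_⟩
  · rw [Tz, nz, one_mul]
    exact (norm_sum_le _ _).trans_eq (by simp only [norm_smul, nt, mul_one, Real.norm_eq_abs])
  · simpa only [Te, nt, ne, mul_one] using T.le_opNorm (e 0)
  · refine lt_of_lt_of_le ?_ (co _ 1)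
    simp [Tz, Fin.sum_univ_five, t, y, mk]
    norm_num
  by_contra hc
  rw [not_le, max_lt_iff] at hc
  obtain ⟨a, ha⟩ := att (F z)
  obtain ⟨s, hs⟩ : ∃ s : Bool, (F z).1 a = if s then 1 else -1 := by
    rcases (abs_eq zero_le_one).1 (ha.trans hFz) with h | h
    exacts [⟨true, h⟩, ⟨false, h⟩]
  have nu : ∀ i, ‖F (e i)‖ ≤ 1 := fun i => by simpa [hF, ne] using F.le_opNorm (e i)
  set σ : ℝ := if s then 1 else -1 with hσ
  have σ2 : σ * σ = 1 := by cases s <;> simp [σ]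
  have σ1 : |σ| = 1 := by cases s <;> simp [σ]
  have ez : z = ∑ i, z i • e i := by ext j; simp [e, X, Pi.single_apply]
  have sm : ∑ i, (|z i| - z i * (σ * (F (e i)).1 a)) = 0 := by
    rw [Finset.sum_sub_distrib, ← nz, hz, ← σ2]
    nth_rewrite 2 [← hs]
    nth_rewrite 1 [ez]
    simp [Finset.mul_sum, mul_left_comm]
  have tm := (Finset.sum_eq_zero_iff_of_nonneg fun i _ => sub_nonneg.2 ((le_abs_self _).trans (by
    rw [abs_mul, abs_mul, σ1, one_mul]
    exact mul_le_of_le_one_right (abs_nonneg _) ((co _ a).trans (nu i))))).1 sm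
  have key : ∀ i, |z i| + (if i ∈ near a s then -1 / 5 else 1 / 5) ≤ |1 / 5 - z i| := fun i => by
    split_ifs with h
    · linarith [abs_sub_abs_le_abs_sub (z i) (1 / 5), abs_sub_comm (z i) (1 / 5),
        show |(1 / 5 : ℝ)| = 1 / 5 by norm_num]
    · have : z i ≤ 0 := not_lt.1 fun p => h (far a s i (F (e i)) (nu i) ?_ ?_)
      · rw [abs_of_nonpos this]; linarith [le_abs_self (1 / 5 - z i)]
      · have := tm i (Finset.mem_univ _)
        rw [abs_of_pos p, ← mul_one_sub, mul_eq_zero, or_iff_right p.ne'] at this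
        linear_combination -σ * this - (F (e i)).1 a * σ2
      · simpa [Te, ne] using ((T - F).le_opNorm (e i)).trans_lt (by simpa [ne] using hc.2)
  have := Finset.sum_le_sum fun i (_ : i ∈ Finset.univ) => key i
  have h2 := hc.1
  rw [Finset.sum_add_distrib, ← nz, hz] at this
  rw [nz] at h2
  have h3 : (1 / 5 : ℝ) ≤ ∑ i, if i ∈ near a s then -1 / 5 else 1 / 5 := by
    fin_cases a <;> cases s <;> simp [near, Fin.sum_univ_five] <;> norm_num
  exact absurd (this.trans_lt h2) (by linarith)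

end Pool.Agent.Results.MP_c24244_an.Octagon
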